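import Pool.Agent.MP_a0c75d_an.H78.Spec

/-! The sum of the series is continued backwards along the recurrence. -/

open Filter Topology Set

namespace Pool.Agent.MP_a0c75d_an.H78

open Pool.Agent.MP_a0c75d_an.H31

namespace Ext

/-- One step backwards. -/
noncomputable def bk (P : Par) (z : ℝ × ℝ) : ℝ × ℝ :=
  ((z.2 * (P.A + P.B * z.1) - P.α) / (1 - z.2), z.1)

variable {P : Par} {l R : ℝ} {h φ : ℝ → ℝ}

theorem abs_lt (l0 : 0 < l) (l1 : l < 1) (n : ℕ) (t : ℝ) : |l ^ n * t| ≤ |t| := by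
  rw [abs_mul, abs_of_pos (pow_pos l0 n)]
  exact mul_le_of_le_one_left (abs_nonneg t) (pow_le_one₀ l0.le l1.le)

theorem conj (l0 : 0 < l) (l1 : l < 1) (G : Good P l R h)
    (hW : ∀ y, P.Sol y → (P.W y ↔ y 1 = φ (y 0))) {t : ℝ} (ht : |t| < R)
    (hp : ∀ n : ℕ, 0 < h (l ^ n * t)) : φ (h t) = h (l * t) := by
  have hd : ∀ n : ℕ, 0 < P.A + P.B * h (l ^ (n + 1) * t) + h (l ^ n * t) := fun n => by
    have := mul_pos P.B_pos (hp (n + 1))
    linarith [P.hA, hp n]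
  have hs : P.Sol fun n => h (l ^ n * t) := by
    refine ⟨(hp 0).le, (hp 1).le, hd 0, fun n => ?_⟩
    have := G.fe (l ^ n * t) ((abs_lt l0 l1 n t).trans_lt ht)
    rw [eq_div_iff (hd n).ne', ← this, show l ^ (n + 2) * t = l ^ 2 * (l ^ n * t) by ring,
      show l ^ (n + 1) * t = l * (l ^ n * t) by ring, mul_comm]
  have hw : P.W fun n => h (l ^ n * t) := by
    have h1 : Tendsto (fun n : ℕ => l ^ n * t) atTop (𝓝 0) := by
      simpa using (tendsto_pow_atTop_nhds_zero_of_lt_one l0.le l1).mul_const t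
    have h2 := G.der.continuousAt.tendsto.comp h1
    rw [G.zero] at h2
    exact h2
  simpa using ((hW _ hs).1 hw).symm

theorem near (hR : 0 < R) (G : Good P l R h) :
    ∃ d, 0 < d ∧ d < R ∧ StrictMonoOn h (Icc (-d) d) ∧ ∀ t ∈ Icc (-d) d, 0 < h t := by
  have a0 : AnalyticAt ℝ h 0 := G.ana 0 ⟨by linarith, hR⟩
  have h1 : ∀ᶠ t in 𝓝 (0 : ℝ), 0 < deriv h t :=
    a0.deriv.continuousAt.eventually (lt_mem_nhds (by rw [G.der.deriv]; exact one_pos))
  have h2 : ∀ᶠ t in 𝓝 (0 : ℝ), 0 < h t :=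
    a0.continuousAt.eventually (lt_mem_nhds (by rw [G.zero]; exact P.he))
  obtain ⟨ε, hε, h3⟩ := Metric.eventually_nhds_iff.1 (h1.and h2)
  have key : ∀ t ∈ Icc (-(min ε R / 2)) (min ε R / 2), |t| < ε ∧ |t| < R := fun t ht => by
    have := abs_le.2 ht
    have := lt_min hε hR
    exact ⟨by linarith [min_le_left ε R], by linarith [min_le_right ε R]⟩
  refine ⟨min ε R / 2, by positivity, by linarith [min_le_right ε R], ?_,
    fun t ht => (h3 (by simpa using (key t ht).1)).2⟩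
  refine strictMonoOn_of_deriv_pos (convex_Icc _ _)
    (fun t ht => (G.ana t (_root_.abs_lt.1 (key t ht).2)).continuousAt.continuousWithinAt)
    fun t ht => (h3 (by simpa using (key t (interior_subset ht)).1)).1

theorem bk_h (l0 : 0 < l) (l1 : l < 1) (G : Good P l R h) (N : ℕ) {t : ℝ} (ht : |t| < R) :
    (bk P)^[N] (h (l ^ N * t), h (l ^ (N + 1) * t)) = (h t, h (l * t)) := by
  induction N with
  | zero => simp
  | succ N ih =>
    rw [Function.iterate_succ_apply, ← ih]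
    congr 1
    have h1 := (abs_lt l0 l1 N t).trans_lt ht
    have h2 := G.fe _ h1
    have h3 := G.lt _ h1
    rw [show l ^ 2 * (l ^ N * t) = l ^ (N + 1 + 1) * t by ring] at h2 h3
    rw [show l * (l ^ N * t) = l ^ (N + 1) * t by ring] at h2
    refine Prod.ext ?_ rfl
    simp only [bk]
    rw [div_eq_iff (by linarith)]
    linear_combination h2

section

variable (hm : StrictMonoOn φ (Ici 0))
  (hf : ∀ u, 0 ≤ u → 0 < φ u ∧ φ (φ u) = (P.α + u) / (P.A + P.B * φ u + u))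
  (hW : ∀ y, P.Sol y → (P.W y ↔ y 1 = φ (y 0)))

include hf in
theorem it_nonneg (n : ℕ) {u : ℝ} (hu : 0 ≤ u) : 0 ≤ φ^[n] u := by
  induction n with
  | zero => exact hu
  | succ n ih => rw [Function.iterate_succ_apply']; exact (hf _ ih).1.le

include hm hf in
theorem it_mono (n : ℕ) : StrictMonoOn φ^[n] (Ici 0) := by
  induction n with
  | zero => exact fun _ _ _ _ h => h
  | succ n ih =>
    intro a ha b hb hab
    rw [Function.iterate_succ_apply', Function.iterate_succ_apply']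
    exact hm (it_nonneg hf n ha) (it_nonneg hf n hb) (ih ha hb hab)

include hW in
theorem it_e (n : ℕ) : φ^[n] P.e = P.e :=
  Function.iterate_fixed ((hW _ P.sol_const).1 tendsto_const_nhds).symm n

include hm hf hW in
theorem it_mem (n : ℕ) {u : ℝ} (hu : u ∈ Icc 0 P.e) : φ^[n] u ∈ Icc 0 P.e :=
  ⟨it_nonneg hf n hu.1, ((it_mono hm hf n).monotoneOn hu.1 P.he.le hu.2).trans (it_e hW n).le⟩

include hf in
theorem den_pos {u : ℝ} (hu : 0 ≤ u) : 0 < P.A + P.B * φ u + u := by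
  have := mul_pos P.B_pos (hf u hu).1
  linarith [P.hA]

include hf hW in
theorem it_lim : Tendsto (fun n => φ^[n] 0) atTop (𝓝 P.e) := by
  have hs : P.Sol fun n => φ^[n] 0 := by
    refine ⟨le_rfl, (hf 0 le_rfl).1.le, den_pos hf le_rfl, fun n => ?_⟩
    simp only [Function.iterate_succ_apply']
    exact (hf _ (it_nonneg hf n le_rfl)).2
  exact (hW _ hs).2 rfl

include hm hf hW in
theorem lt_one {u : ℝ} (hu : u ∈ Icc 0 P.e) : φ (φ u) < 1 :=
  (it_mem hm hf hW 2 hu).2.trans_lt (P.e_lt_M.trans P.M_lt_one)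

include hm hf hW in
theorem bk_φ {u : ℝ} (hu : u ∈ Icc 0 P.e) :
    (φ (φ u) * (P.A + P.B * φ u) - P.α) / (1 - φ (φ u)) = u := by
  have h1 := (hf u hu.1).2
  rw [eq_div_iff (den_pos hf hu.1).ne'] at h1
  rw [div_eq_iff (by linarith [lt_one hm hf hW hu])]
  linear_combination h1

include hm hf hW in
theorem bk_it (N : ℕ) {u : ℝ} (hu : u ∈ Icc 0 P.e) :
    (bk P)^[N] (φ^[N] u, φ^[N + 1] u) = (u, φ u) := by
  induction N with
  | zero => simp
  | succ N ih =>
    rw [Function.iterate_succ_apply, ← ih]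
    congr 1
    simp only [Function.iterate_succ_apply', bk]
    exact Prod.ext (bk_φ hm hf hW (it_mem hm hf hW N hu)) rfl

include hm hf hW in
theorem bk_ana (k : ℕ) {t u : ℝ} (hu : u ∈ Icc 0 P.e) (f g : ℝ → ℝ) (a1 : AnalyticAt ℝ f t)
    (a2 : AnalyticAt ℝ g t) (e1 : f t = φ^[k] u) (e2 : g t = φ^[k + 1] u) :
    AnalyticAt ℝ (fun s => ((bk P)^[k] (f s, g s)).1) t := by
  induction k generalizing f g with
  | zero => exact a1
  | succ k ih =>
    have hv := it_mem hm hf hW k hu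
    simp only [Function.iterate_succ_apply'] at e1 e2
    simp only [Function.iterate_succ_apply, bk]
    refine ih (fun s => (g s * (P.A + P.B * f s) - P.α) / (1 - g s)) f ?_ a1 ?_ ?_
    · refine AnalyticAt.div (by fun_prop) (by fun_prop) ?_
      rw [e2]
      linarith [lt_one hm hf hW hv]
    · rw [e1, e2, bk_φ hm hf hW hv]
    · rw [e1, Function.iterate_succ_apply']

end

end Ext

open Ext in
theorem ext : EXT := by
  intro P l R h φ l0 l1 hR G hc hm hf hW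
  obtain ⟨d, d0, dR, dm, dp⟩ := near hR G
  have hcont : ∀ a b, -R < a → b < R → ContinuousOn h (Icc a b) := fun a b ha hb t ht =>
    (G.ana t ⟨by linarith [ht.1], by linarith [ht.2]⟩).continuousAt.continuousWithinAt
  have hd : h (-d) < P.e := by
    rw [← G.zero]
    exact dm ⟨le_rfl, by linarith⟩ ⟨by linarith, d0.le⟩ (by linarith)
  obtain ⟨N, hN⟩ := ((it_lim hf hW).eventually (lt_mem_nhds hd)).exists
  have hNe : φ^[N] 0 < P.e := by
    have := it_mono hm hf N self_mem_Ici P.he.le P.he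
    rwa [it_e hW] at this
  obtain ⟨s₀, hs₀, es₀⟩ := intermediate_value_Icc (show -d ≤ 0 by linarith)
    (hcont (-d) 0 (by linarith) hR) ⟨hN.le, by rw [G.zero]; exact hNe.le⟩
  have s0 : s₀ < 0 := lt_of_le_of_ne hs₀.2 fun e => by
    rw [e, G.zero] at es₀
    exact hNe.ne es₀.symm
  have lN : 0 < l ^ N := pow_pos l0 N
  have icont : ContinuousOn φ^[N] (Icc 0 P.e) :=
    (hc.mono Icc_subset_Ici_self).iterate (fun u hu => it_mem hm hf hW 1 hu) N
  set H : ℝ → ℝ := fun t => ((bk P)^[N] (h (l ^ N * t), h (l ^ (N + 1) * t))).1 with hH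
  have Hh : ∀ t, |t| < R → H t = h t := fun t ht => by simp only [hH, bk_h l0 l1 G N ht]
  have cj : ∀ s ∈ Icc (-d) d, φ (h s) = h (l * s) := fun s hs =>
    conj l0 l1 G hW ((abs_le.2 hs).trans_lt dR) fun n =>
      dp _ (abs_le.1 ((abs_lt l0 l1 n s).trans (abs_le.2 hs)))
  have mem : ∀ t ∈ Icc (s₀ / l ^ N) 0, l ^ N * t ∈ Icc s₀ 0 := fun t ht =>
    ⟨by have := (div_le_iff₀ lN).1 ht.1; linarith, mul_nonpos_of_nonneg_of_nonpos lN.le ht.2⟩
  have sub : Icc s₀ 0 ⊆ Icc (-d) d := Icc_subset_Icc hs₀.1 d0.le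
  have key : ∀ t ∈ Icc (s₀ / l ^ N) 0, H t ∈ Icc 0 P.e ∧ φ^[N] (H t) = h (l ^ N * t) ∧
      φ^[N + 1] (H t) = h (l ^ (N + 1) * t) := by
    intro t ht
    have m1 := mem t ht
    obtain ⟨u, hu, eu⟩ := intermediate_value_Icc P.he.le icont
      (show h (l ^ N * t) ∈ Icc (φ^[N] 0) (φ^[N] P.e) from
        ⟨es₀ ▸ dm.monotoneOn (sub ⟨le_rfl, s0.le⟩) (sub m1) m1.1, by
          rw [it_e hW, ← G.zero]
          exact dm.monotoneOn (sub m1) (sub ⟨s0.le, le_rfl⟩) m1.2⟩)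
    have e2 : φ^[N + 1] u = h (l ^ (N + 1) * t) := by
      rw [Function.iterate_succ_apply', eu, cj _ (sub m1), pow_succ', mul_assoc]
    have e3 : H t = u := by simp only [hH, ← eu, ← e2, bk_it hm hf hW N hu]
    rw [e3]
    exact ⟨hu, eu, e2⟩
  have t0 : s₀ / l ^ N < 0 := div_neg_of_neg_of_pos s0 lN
  have lmem : ∀ t ∈ Icc (s₀ / l ^ N) 0, l * t ∈ Icc (s₀ / l ^ N) 0 := fun t ht =>
    ⟨by nlinarith [ht.1, ht.2], mul_nonpos_of_nonneg_of_nonpos l0.le ht.2⟩
  have neg : ∀ t ∈ Icc (s₀ / l ^ N) 0, φ (H t) = H (l * t) := fun t ht => by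
    obtain ⟨k1, -, k3⟩ := key t ht
    obtain ⟨k4, k5, -⟩ := key _ (lmem t ht)
    refine (it_mono hm hf N).injOn (hf _ k1.1).1.le k4.1 ?_
    rw [k5, ← Function.iterate_succ_apply, k3, pow_succ, mul_assoc]
  have ab : ∀ t ∈ Ico 0 R, |t| < R := fun t ht => by rw [abs_of_nonneg ht.1]; exact ht.2
  have ge : ∀ t ∈ Ico 0 R, P.e ≤ h t := fun t ht => by
    rw [← G.zero]
    exact G.mono.monotoneOn ⟨le_rfl, hR⟩ ht ht.1
  have m1 : StrictMonoOn H (Icc (s₀ / l ^ N) 0) := fun a ha b hb hab => by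
    refine ((it_mono hm hf N).lt_iff_lt (key a ha).1.1 (key b hb).1.1).1 ?_
    rw [(key a ha).2.1, (key b hb).2.1]
    exact dm (sub (mem a ha)) (sub (mem b hb)) (mul_lt_mul_of_pos_left hab lN)
  have m2 : StrictMonoOn H (Ico 0 R) := fun a ha b hb hab => by
    rw [Hh a (ab a ha), Hh b (ab b hb)]
    exact G.mono ha hb hab
  have l2 : ∀ t, l ^ 2 * t = l * (l * t) := fun t => by ring
  refine ⟨H, s₀ / l ^ N, t0, Hh, fun t ht => ?_, fun t ht => ?_, fun a ha b hb hab => ?_, ?_,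
    fun t ht => ?_⟩
  · rcases le_total t 0 with h0 | h0
    · have k := (key t ⟨ht.1, h0⟩).1
      rw [l2, ← neg _ (lmem t ⟨ht.1, h0⟩), ← neg t ⟨ht.1, h0⟩]
      exact ⟨lt_one hm hf hW k, (bk_φ hm hf hW k).symm⟩
    · have a := ab t ⟨h0, ht.2⟩
      have a1 : |l * t| < R := by simpa using (abs_lt l0 l1 1 t).trans_lt a
      rw [Hh t a, Hh _ a1, Hh _ ((abs_lt l0 l1 2 t).trans_lt a)]
      refine ⟨G.lt t a, ?_⟩
      rw [eq_div_iff (by linarith [G.lt t a])]
      linear_combination -G.fe t a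
  · rcases le_total t 0 with h0 | h0
    · obtain ⟨k1, k2, k3⟩ := key t ⟨ht.1, h0⟩
      have a : |l ^ N * t| < R := (abs_le.2 (sub (mem t ⟨ht.1, h0⟩))).trans_lt dR
      have a1 : |l ^ (N + 1) * t| < R := by
        have := (abs_lt l0 l1 1 (l ^ N * t)).trans_lt a
        rwa [pow_one, ← mul_assoc, ← pow_succ'] at this
      exact bk_ana hm hf hW N k1 _ _
        ((G.ana _ (_root_.abs_lt.1 a)).comp_of_eq (f := fun s => l ^ N * s) (by fun_prop) rfl)
        ((G.ana _ (_root_.abs_lt.1 a1)).comp_of_eq (f := fun s => l ^ (N + 1) * s) (by fun_prop)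
          rfl) k2.symm k3.symm
    · have a := _root_.abs_lt.1 (ab t ⟨h0, ht.2⟩)
      refine (G.ana t a).congr ?_
      filter_upwards [Ioo_mem_nhds a.1 a.2] with s hs
      exact (Hh s (_root_.abs_lt.2 hs)).symm
  · rcases le_total b 0 with h0 | h0
    · exact m1 ⟨ha.1, by linarith⟩ ⟨hb.1, h0⟩ hab
    · rcases le_or_gt 0 a with h1 | h1
      · exact m2 ⟨h1, ha.2⟩ ⟨h0, hb.2⟩ hab
      · exact (m1 ⟨ha.1, h1.le⟩ ⟨t0.le, le_rfl⟩ h1).trans_le
          (m2.monotoneOn ⟨le_rfl, hR⟩ ⟨h0, hb.2⟩ h0)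
  · refine Subset.antisymm ?_ fun u hu => ?_
    · rintro _ ⟨t, ht, rfl⟩
      rcases le_total t 0 with h0 | h0
      · exact (key t ⟨ht.1, h0⟩).1.1
      · rw [Hh t (ab t ⟨h0, ht.2⟩)]
        exact P.he.le.trans (ge t ⟨h0, ht.2⟩)
    · rcases le_total u P.e with h0 | h0
      · obtain ⟨s, hs, es⟩ := intermediate_value_Icc s0.le (hcont s₀ 0 (by linarith [hs₀.1]) hR)
          (show φ^[N] u ∈ Icc (h s₀) (h 0) from
            ⟨es₀ ▸ (it_mono hm hf N).monotoneOn self_mem_Ici hu hu,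
              G.zero ▸ (it_mem hm hf hW N ⟨hu, h0⟩).2⟩)
        have ht : s / l ^ N ∈ Icc (s₀ / l ^ N) 0 :=
          ⟨by gcongr; exact hs.1, div_nonpos_of_nonpos_of_nonneg hs.2 lN.le⟩
        refine ⟨s / l ^ N, ⟨ht.1, ht.2.trans_lt hR⟩,
          (it_mono hm hf N).injOn (key _ ht).1.1 hu ?_⟩
        rw [(key _ ht).2.1, mul_div_cancel₀ _ lN.ne', es]
      · obtain ⟨b, b1, b2⟩ := ((G.top.eventually (eventually_ge_atTop u)).and
          (Ioo_mem_nhdsLT hR)).exists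
        obtain ⟨s, hs, es⟩ := intermediate_value_Icc b2.1.le (hcont 0 b (by linarith) b2.2)
          (show u ∈ Icc (h 0) (h b) from ⟨G.zero ▸ h0, b1⟩)
        have hs' : s ∈ Ico 0 R := ⟨hs.1, hs.2.trans_lt b2.2⟩
        exact ⟨s, ⟨t0.le.trans hs.1, hs'.2⟩, by rw [Hh s (ab s hs'), es]⟩
  · rcases le_total t 0 with h0 | h0
    · exact neg t ⟨ht.1, h0⟩
    · have a := ab t ⟨h0, ht.2⟩
      have a1 : |l * t| < R := by simpa using (abs_lt l0 l1 1 t).trans_lt a
      rw [Hh t a, Hh _ a1]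
      refine conj l0 l1 G hW a fun n => P.he.trans_le (ge _ ⟨by positivity, ?_⟩)
      exact (le_abs_self _).trans_lt ((abs_lt l0 l1 n t).trans_lt a)

end Pool.Agent.MP_a0c75d_an.H78
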