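import Pool.Agent.MP_a0c75d_an.H78.Spec

open Filter Topology Set

namespace Pool.Agent.MP_a0c75d_an.H78

open Pool.Agent.MP_a0c75d_an.H31

/-- The three limits in terms of the separating function, for solutions indexed by integers. -/
theorem tri_int (P : Par) (φ : ℝ → ℝ) (h6 : ∀ y, P.Sol y →
      (P.W y ↔ y 1 = φ (y 0)) ∧ (P.Up y ↔ φ (y 0) < y 1) ∧ (P.Dn y ↔ y 1 < φ (y 0)))
    (x : ℤ → ℝ) (a1 : 0 ≤ x (-1)) (a2 : 0 ≤ x 0) (a3 : P.A = 0 → (x (-1), x 0) ≠ (0, 0))
    (a4 : ∀ n : ℕ, x (n + 1) = (P.α + x (n - 1)) / (P.A + P.B * x n + x (n - 1))) :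
    (Tendsto (fun n : ℕ => x n) atTop (𝓝 P.e) ↔ x 0 = φ (x (-1))) ∧
      (Tendsto (fun n : ℕ => (x (2 * n), x (2 * n + 1))) atTop (𝓝 (P.m, P.M)) ↔
        x 0 < φ (x (-1))) ∧
      (Tendsto (fun n : ℕ => (x (2 * n), x (2 * n + 1))) atTop (𝓝 (P.M, P.m)) ↔
        φ (x (-1)) < x 0) := by
  have hs : P.Sol fun n : ℕ => x ((n : ℤ) - 1) := by
    refine ⟨a1, a2, ?_, fun n => ?_⟩
    · show 0 < P.A + P.B * x 0 + x (-1)
      have b1 := mul_nonneg P.B_pos.le a2
      have hA0 := P.hA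
      by_contra hc
      have b2 : P.B * x 0 = 0 := by linarith
      have b3 := (mul_eq_zero.mp b2).resolve_left P.B_pos.ne'
      exact a3 (by linarith) (Prod.ext (by simp only; linarith) b3)
    · have c1 : ((n + 2 : ℕ) : ℤ) - 1 = n + 1 := by push_cast; ring
      have c2 : ((n + 1 : ℕ) : ℤ) - 1 = n := by push_cast; ring
      simp only [c1, c2]
      exact a4 n
  obtain ⟨k1, k2, k3⟩ := h6 _ hs
  refine ⟨Iff.trans ?_ k1, pair_iff.trans k3, pair_iff.trans k2⟩
  rw [Par.W, ← tendsto_add_atTop_iff_nat (f := fun n : ℕ => x ((n : ℤ) - 1)) 1]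
  simp

/-- The root in `(0, 1)` of the characteristic equation. -/
theorem root (P : Par) (l : ℝ) (hl : l = (-(P.B * P.e) + Real.sqrt ((P.B * P.e) ^ 2 +
      4 * (P.A + (P.B + 1) * P.e) * (1 - P.e))) / (2 * (P.A + (P.B + 1) * P.e))) :
    0 < l ∧ l < 1 ∧ (P.A + (P.B + 1) * P.e) * l ^ 2 + P.B * P.e * l = 1 - P.e := by
  have he := P.he
  have hB := P.B_pos
  have hA := P.hA
  have h1 : P.e < 1 := P.e_lt_M.trans P.M_lt_one
  set D := P.A + (P.B + 1) * P.e with hD
  have hD0 : 0 < D := by positivity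
  set b := P.B * P.e with hb
  have hb0 : 0 < b := by positivity
  have h4 : 0 < 4 * D * (1 - P.e) := by
    have : 0 < 1 - P.e := by linarith
    positivity
  set s := Real.sqrt (b ^ 2 + 4 * D * (1 - P.e)) with hs
  have hs0 : 0 ≤ s := Real.sqrt_nonneg _
  have hs2 : s ^ 2 = b ^ 2 + 4 * D * (1 - P.e) := Real.sq_sqrt (by positivity)
  have hbs : b < s := by nlinarith
  have hl' : 2 * D * l = -b + s := by rw [hl]; field_simp
  have hq : D * l ^ 2 + b * l = 1 - P.e := by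
    have : 4 * D * (D * l ^ 2 + b * l - (1 - P.e)) = 0 := by
      have e : s = 2 * D * l + b := by linarith
      rw [e] at hs2
      linear_combination hs2
    have := (mul_eq_zero.mp this).resolve_left (by positivity)
    linarith
  have hl0 : 0 < l := by
    by_contra h
    nlinarith
  refine ⟨hl0, ?_, hq⟩
  by_contra h
  rw [not_lt] at h
  have h5 : P.e * D = P.α + P.e := by rw [hD, ← P.heq]; ring
  have h6 : 1 < D := by
    by_contra h7
    nlinarith [P.hα]
  nlinarith [mul_le_mul h h zero_le_one hl0.le]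

end Pool.Agent.MP_a0c75d_an.H78
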