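import Pool.Agent.MP_a0c75d_an.H78.Spec

/-! Row Ser: the power series with positive coefficients and its radius of convergence. -/

open Filter Topology Set

namespace Pool.Agent.MP_a0c75d_an.H78

open Pool.Agent.MP_a0c75d_an.H31

namespace Ser

/-- Pairs with a given sum. -/
abbrev ad (k : ℕ) : Finset (ℕ × ℕ) := Finset.HasAntidiagonal.antidiagonal k

theorem mem_ad {k : ℕ} {p : ℕ × ℕ} : p ∈ ad k ↔ p.1 + p.2 = k :=
  Finset.HasAntidiagonal.mem_antidiagonal

theorem ad_zero : ad 0 = {(0, 0)} := rfl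

theorem tri_le {f g : ℕ → ℝ} (hf : ∀ i, 0 ≤ f i) (hg : ∀ i, 0 ≤ g i) (n : ℕ) :
    ∑ k ∈ Finset.range n, ∑ p ∈ ad k, f p.1 * g p.2 ≤
      (∑ i ∈ Finset.range n, f i) * ∑ j ∈ Finset.range n, g j := by
  rw [Finset.sum_mul_sum, ← Finset.sum_product', ← Finset.sum_biUnion]
  · refine Finset.sum_le_sum_of_subset_of_nonneg (fun p hp => ?_)
      fun p _ _ => mul_nonneg (hf _) (hg _)
    simp only [Finset.mem_biUnion, Finset.mem_range, mem_ad, Finset.mem_product] at hp ⊢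
    obtain ⟨k, h1, h2⟩ := hp
    omega
  · intro a _ b _ hab
    refine Finset.disjoint_left.2 fun p h1 h2 => hab ?_
    rw [← mem_ad.1 h1, ← mem_ad.1 h2]

/-- The coefficients. -/
noncomputable def cf (A B e l : ℝ) : ℕ → ℝ
  | 0 => e
  | 1 => 1
  | k + 2 => (∑ j ∈ (Finset.Ioo 0 (k + 2)).attach, (B * l ^ j.1 + 1) * cf A B e l j.1 *
      (l ^ (2 * (k + 2 - j.1)) * cf A B e l (k + 2 - j.1))) /
      (1 - e - B * e * l ^ (k + 2) - (A + (B + 1) * e) * l ^ (2 * (k + 2)))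
decreasing_by
  all_goals
    have := Finset.mem_Ioo.1 j.2
    omega

theorem rec_cf (A B e l : ℝ) : Rec A B e l (cf A B e l) := by
  refine ⟨by rw [cf], by rw [cf], fun k hk => ?_⟩
  obtain ⟨k, rfl⟩ : ∃ j, k = j + 2 := ⟨k - 2, by omega⟩
  rw [cf, Finset.sum_attach (Finset.Ioo 0 (k + 2)) fun j => (B * l ^ j + 1) * cf A B e l j *
    (l ^ (2 * (k + 2 - j)) * cf A B e l (k + 2 - j))]

/-- The standing hypotheses. -/
structure Hyp (P : Par) (l : ℝ) (c : ℕ → ℝ) : Prop where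
  l0 : 0 < l
  l1 : l < 1
  eq : (P.A + (P.B + 1) * P.e) * l ^ 2 + P.B * P.e * l = 1 - P.e
  rc : Rec P.A P.B P.e l c

/-- The denominator. -/
def del (P : Par) (l : ℝ) (k : ℕ) : ℝ :=
  1 - P.e - P.B * P.e * l ^ k - (P.A + (P.B + 1) * P.e) * l ^ (2 * k)

/-- Convergence at `t`. -/
def Sm (c : ℕ → ℝ) (t : ℝ) : Prop := Summable fun k => c k * t ^ k

/-- The sum. -/
noncomputable def sm (c : ℕ → ℝ) (t : ℝ) : ℝ := ∑' k, c k * t ^ k

variable {P : Par} {l : ℝ} {c : ℕ → ℝ}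

theorem e_lt_one (P : Par) : P.e < 1 := P.e_lt_M.trans P.M_lt_one

theorem Hyp.del_two (H : Hyp P l c) : 0 < del P l 2 := by
  have h0 := H.l0
  have h1 := H.l1
  have hB := mul_pos P.B_pos P.he
  have hD : 0 ≤ P.A + (P.B + 1) * P.e := by nlinarith [P.hA, P.he]
  have h2 : l ^ 2 < l := by nlinarith
  have h3 : l ^ (2 * 2) ≤ l ^ 2 := pow_le_pow_of_le_one h0.le h1.le (by omega)
  have h4 := mul_lt_mul_of_pos_left h2 hB
  have h5 := mul_le_mul_of_nonneg_left h3 hD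
  unfold del
  linarith [H.eq]

theorem Hyp.del_ge (H : Hyp P l c) {k : ℕ} (hk : 2 ≤ k) : del P l 2 ≤ del P l k := by
  have hB := mul_pos P.B_pos P.he
  have hD : 0 ≤ P.A + (P.B + 1) * P.e := by nlinarith [P.hA, P.he]
  have h2 : l ^ k ≤ l ^ 2 := pow_le_pow_of_le_one H.l0.le H.l1.le hk
  have h3 : l ^ (2 * k) ≤ l ^ (2 * 2) := pow_le_pow_of_le_one H.l0.le H.l1.le (by omega)
  have h4 := mul_le_mul_of_nonneg_left h2 hB.le
  have h5 := mul_le_mul_of_nonneg_left h3 hD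
  unfold del
  linarith

theorem Hyp.pos (H : Hyp P l c) (k : ℕ) : 0 < c k := by
  induction k using Nat.strong_induction_on with
  | _ k ih =>
    rcases k with _ | _ | k
    · rw [H.rc.1]; exact P.he
    · rw [H.rc.2.1]; exact one_pos
    · rw [H.rc.2.2 _ (by omega)]
      refine div_pos (Finset.sum_pos (fun j hj => ?_) ⟨1, by simp⟩)
        (H.del_two.trans_le (H.del_ge (by omega)))
      have hj' := Finset.mem_Ioo.1 hj
      have h1 := ih j hj'.2
      have h2 := ih (k + 1 + 1 - j) (by omega)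
      have := H.l0
      have := P.B_pos
      positivity

theorem Hyp.step (H : Hyp P l c) (k : ℕ) : del P l (k + 2) * c (k + 2) =
    ∑ p ∈ ad k,
      (P.B * l ^ (p.1 + 1) + 1) * c (p.1 + 1) * (l ^ (2 * (p.2 + 1)) * c (p.2 + 1)) := by
  rw [H.rc.2.2 _ (by omega)]
  change del P l (k + 2) * (_ / del P l (k + 2)) = _
  rw [mul_div_cancel₀ _ (H.del_two.trans_le (H.del_ge (by omega))).ne']
  symm
  refine Finset.sum_bij' (fun p _ => p.1 + 1) (fun j _ => (j - 1, k + 1 - j)) ?_ ?_ ?_ ?_ ?_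
  · intro p hp
    have := mem_ad.1 hp
    simp only [Finset.mem_Ioo]
    omega
  · intro j hj
    have := Finset.mem_Ioo.1 hj
    simp only [mem_ad]
    omega
  · intro p hp
    have := mem_ad.1 hp
    ext <;> simp only <;> omega
  · intro j hj
    have := Finset.mem_Ioo.1 hj
    simp only
    omega
  · intro p hp
    have := mem_ad.1 hp
    rw [show k + 2 - (p.1 + 1) = p.2 + 1 by omega]

/-- The identity between coefficients. -/
theorem Hyp.key (H : Hyp P l c) (t : ℝ) (k : ℕ) :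
    ∑ p ∈ ad k, ((if p.1 = 0 then P.A else 0) + P.B * (c p.1 * (l * t) ^ p.1) +
      c p.1 * t ^ p.1) * (c p.2 * (l ^ 2 * t) ^ p.2) =
      (if k = 0 then P.α else 0) + c k * t ^ k := by
  rcases k with _ | _ | k
  · simp only [ad_zero, Finset.sum_singleton, H.rc.1, if_true, pow_zero]
    linear_combination P.heq
  · rw [Finset.Nat.sum_antidiagonal_succ]
    simp [H.rc.1, H.rc.2.1]
    linear_combination t * H.eq
  · have h := H.step k
    rw [Finset.Nat.sum_antidiagonal_succ, Finset.Nat.sum_antidiagonal_succ']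
    have h2 : ∑ p ∈ ad k, ((if p.1 + 1 = 0 then P.A else 0) +
        P.B * (c (p.1 + 1) * (l * t) ^ (p.1 + 1)) + c (p.1 + 1) * t ^ (p.1 + 1)) *
        (c (p.2 + 1) * (l ^ 2 * t) ^ (p.2 + 1)) = del P l (k + 2) * c (k + 2) * t ^ (k + 2) := by
      rw [h, Finset.sum_mul]
      refine Finset.sum_congr rfl fun p hp => ?_
      rw [← mem_ad.1 hp, if_neg (by omega)]
      ring
    simp only
    rw [h2, H.rc.1, del]
    simp only [if_true, Nat.add_eq_zero_iff, one_ne_zero, and_false, if_false]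
    ring

theorem Hyp.mono (H : Hyp P l c) {s t : ℝ} (hs : Sm c s) (h : |t| ≤ s) : Sm c t :=
  Summable.of_norm_bounded hs fun k => by
    rw [Real.norm_eq_abs, abs_mul, abs_pow, abs_of_pos (H.pos k)]
    exact mul_le_mul_of_nonneg_left (pow_le_pow_left₀ (abs_nonneg _) h k) (H.pos k).le

theorem Hyp.small (H : Hyp P l c) : ∃ t, 0 < t ∧ Sm c t := by
  have hd := H.del_two
  have hB := P.B_pos
  obtain ⟨t, ht, ht'⟩ : ∃ t : ℝ, 0 < t ∧ t * (P.B + 1) * 4 = del P l 2 :=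
    ⟨del P l 2 / ((P.B + 1) * 4), by positivity, by field_simp⟩
  have h0 : ∀ k, 0 ≤ c (k + 1) * t ^ k := fun k => mul_nonneg (H.pos _).le (by positivity)
  have h1 : ∀ k, 4 * (c (k + 1 + 1) * t ^ (k + 1)) ≤
      ∑ p ∈ ad k, c (p.1 + 1) * t ^ p.1 * (c (p.2 + 1) * t ^ p.2) := by
    intro k
    have h2 : del P l 2 * c (k + 2) ≤
        (P.B + 1) * ∑ p ∈ ad k, c (p.1 + 1) * c (p.2 + 1) := by
      refine (mul_le_mul_of_nonneg_right (H.del_ge (by omega : 2 ≤ k + 2)) (H.pos _).le).trans ?_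
      rw [H.step, Finset.mul_sum]
      refine Finset.sum_le_sum fun p _ => ?_
      have a1 : l ^ (p.1 + 1) ≤ 1 := pow_le_one₀ H.l0.le H.l1.le
      have a2 : l ^ (2 * (p.2 + 1)) ≤ 1 := pow_le_one₀ H.l0.le H.l1.le
      have a3 := H.pos (p.1 + 1)
      have a4 := H.pos (p.2 + 1)
      have a5 := H.l0
      rw [← mul_assoc (P.B + 1)]
      exact mul_le_mul (mul_le_mul_of_nonneg_right (by nlinarith) a3.le)
        (mul_le_of_le_one_left a4.le a2) (by positivity) (by positivity)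
    have h3 : ∑ p ∈ ad k, c (p.1 + 1) * t ^ p.1 * (c (p.2 + 1) * t ^ p.2) =
        t ^ k * ∑ p ∈ ad k, c (p.1 + 1) * c (p.2 + 1) := by
      rw [Finset.mul_sum]
      refine Finset.sum_congr rfl fun p hp => ?_
      rw [← mem_ad.1 hp]
      ring
    rw [h3]
    rw [← ht'] at h2
    have h4 : 4 * t * c (k + 2) ≤ ∑ p ∈ ad k, c (p.1 + 1) * c (p.2 + 1) :=
      le_of_mul_le_mul_left (by linarith) (by linarith : 0 < P.B + 1)
    have h5 := mul_le_mul_of_nonneg_left h4 (pow_pos ht k).le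
    rw [pow_succ]
    linarith
  have h2 : ∀ n, ∑ k ∈ Finset.range n, c (k + 1) * t ^ k ≤ 2 := by
    intro n
    induction n with
    | zero => simp
    | succ n ih =>
      rw [Finset.sum_range_succ', zero_add, H.rc.2.1]
      have a1 := Finset.sum_le_sum fun k (_ : k ∈ Finset.range n) => h1 k
      have a2 := tri_le h0 h0 n
      have a3 : 0 ≤ ∑ k ∈ Finset.range n, c (k + 1) * t ^ k := Finset.sum_nonneg fun k _ => h0 k
      rw [← Finset.mul_sum] at a1
      nlinarith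
  refine ⟨t, ht, (summable_nat_add_iff 1).1 ?_⟩
  refine ((summable_of_sum_range_le h0 h2).mul_right t).congr fun k => ?_
  rw [pow_succ, mul_assoc]

theorem Hyp.abs_l (H : Hyp P l c) (t : ℝ) : |l * t| ≤ |t| ∧ |l ^ 2 * t| ≤ |l * t| := by
  have h0 := H.l0
  have h1 := H.l1
  have := abs_nonneg t
  rw [abs_mul, abs_mul, abs_of_pos h0, abs_of_pos (pow_pos h0 2)]
  exact ⟨by nlinarith, mul_le_mul_of_nonneg_right (by nlinarith) this⟩

theorem Hyp.fe (H : Hyp P l c) {t : ℝ} (h : Sm c |t|) :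
    (P.A + P.B * sm c (l * t) + sm c t) * sm c (l ^ 2 * t) = P.α + sm c t := by
  have s0 : Sm c t := H.mono h le_rfl
  have s1 : Sm c (l * t) := H.mono h (H.abs_l t).1
  have s2 : Sm c (l ^ 2 * t) := H.mono h ((H.abs_l t).2.trans (H.abs_l t).1)
  have h1 := ((hasSum_ite_eq 0 P.A).add (s1.hasSum.mul_left P.B)).add s0.hasSum
  have h2 := tsum_mul_tsum_eq_tsum_sum_antidiagonal_of_summable_norm h1.summable.norm s2.norm
  rw [h1.tsum_eq] at h2
  simp only [H.key] at h2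
  rw [((hasSum_ite_eq 0 P.α).add s0.hasSum).tsum_eq] at h2
  exact h2

theorem Hyp.ge (H : Hyp P l c) {t : ℝ} (ht : 0 ≤ t) (h : Sm c t) : P.e + t ≤ sm c t := by
  have := h.sum_le_tsum (Finset.range 2) fun k _ => mul_nonneg (H.pos k).le (pow_nonneg ht k)
  simpa [Finset.sum_range_succ, H.rc.1, H.rc.2.1, sm] using this

theorem Hyp.low (H : Hyp P l c) {t : ℝ} (ht : 0 ≤ t) (h : Sm c t) :
    P.e * (1 - P.e) ≤ sm c t * (1 - sm c (l ^ 2 * t)) := by
  have h0 := H.l0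
  have ha := H.abs_l t
  rw [abs_of_nonneg ht] at ha
  have h1 := H.fe (t := t) (by rwa [abs_of_nonneg ht])
  have h2 := H.ge (by positivity) (H.mono h ha.1)
  have h3 := H.ge (by positivity) (H.mono h (ha.2.trans ha.1))
  have h4 : 0 ≤ l * t := by positivity
  have h5 : 0 ≤ l ^ 2 * t := by positivity
  have h6 : (P.A + P.B * P.e) * P.e ≤ (P.A + P.B * sm c (l * t)) * sm c (l ^ 2 * t) :=
    mul_le_mul (by nlinarith [P.B_pos]) (by linarith) P.he.le
      (by nlinarith [P.B_pos, P.hA, P.he])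
  nlinarith [P.heq]

theorem Hyp.lt (H : Hyp P l c) {t : ℝ} (ht : 0 ≤ t) (h : Sm c t) : sm c (l ^ 2 * t) < 1 := by
  have h1 := H.low ht h
  have h2 := H.ge ht h
  have h3 := mul_pos P.he (sub_pos.2 (e_lt_one P))
  by_contra hc
  have := mul_nonpos_of_nonneg_of_nonpos (a := sm c t) (by linarith [P.he]) (sub_nonpos.2 (not_lt.1 hc))
  linarith

theorem Hyp.ext (H : Hyp P l c) {t : ℝ} (ht : 0 ≤ t) (h : Sm c (l * t))
    (h1 : sm c (l ^ 2 * t) < 1) : Sm c t := by
  have h0 := H.l0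
  have hB := P.B_pos
  have ha := (H.abs_l t).2
  rw [abs_of_nonneg (a := l * t) (by positivity)] at ha
  have s2 := H.mono h ha
  have p0 : ∀ k, 0 ≤ c k * t ^ k := fun k => mul_nonneg (H.pos k).le (by positivity)
  have p1 : ∀ k, 0 ≤ c k * (l * t) ^ k := fun k => mul_nonneg (H.pos k).le (by positivity)
  have p2 : ∀ k, 0 ≤ c k * (l ^ 2 * t) ^ k := fun k => mul_nonneg (H.pos k).le (by positivity)
  have p3 : ∀ k : ℕ, 0 ≤ if k = 0 then P.A else 0 := fun k => by
    split_ifs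
    exacts [P.hA, le_rfl]
  refine summable_of_sum_range_le
    (c := (P.A + P.B * sm c (l * t)) * sm c (l ^ 2 * t) / (1 - sm c (l ^ 2 * t))) p0 fun n => ?_
  rw [le_div_iff₀ (by linarith)]
  have a1 := tri_le (f := fun k => (if k = 0 then P.A else 0) + P.B * (c k * (l * t) ^ k) +
    c k * t ^ k) (fun k => add_nonneg (add_nonneg (p3 k) (mul_nonneg hB.le (p1 k))) (p0 k)) p2 n
  simp only [H.key] at a1
  rw [Finset.sum_add_distrib, Finset.sum_add_distrib] at a1
  have a2 : 0 ≤ ∑ k ∈ Finset.range n, if k = 0 then P.α else 0 :=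
    Finset.sum_nonneg fun k _ => by
      split_ifs
      exacts [P.hα.le, le_rfl]
  have a3 := sum_le_hasSum (Finset.range n) (fun k _ => add_nonneg (p3 k) (mul_nonneg hB.le (p1 k)))
    ((hasSum_ite_eq 0 P.A).add (h.hasSum.mul_left P.B))
  have a4 := s2.sum_le_tsum (Finset.range n) fun k _ => p2 k
  have a5 : 0 ≤ ∑ k ∈ Finset.range n, c k * t ^ k := Finset.sum_nonneg fun k _ => p0 k
  have a6 : 0 ≤ sm c (l * t) := tsum_nonneg p1
  have a7 := mul_le_mul (add_le_add_left a3 (∑ k ∈ Finset.range n, c k * t ^ k)) a4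
    (Finset.sum_nonneg fun k _ => p2 k) (by have := P.hA; positivity)
  unfold sm
  linarith

theorem Hyp.power (H : Hyp P l c) {R : ℝ} (hR : 0 < R) (h : ∀ t, |t| < R → Sm c t) :
    HasFPowerSeriesOnBall (sm c) (FormalMultilinearSeries.ofScalars ℝ c) 0 (ENNReal.ofReal R) := by
  refine ⟨ENNReal.le_of_forall_nnreal_lt fun r hr => ?_, ENNReal.ofReal_pos.2 hR, fun {y} hy => ?_⟩
  · refine FormalMultilinearSeries.le_radius_of_summable _ ?_
    have hr' : (r : ℝ) < R := by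
      rwa [← ENNReal.ofReal_coe_nnreal, ENNReal.ofReal_lt_ofReal_iff hR] at hr
    refine (h r (by rwa [abs_of_nonneg r.coe_nonneg])).congr fun k => ?_
    rw [FormalMultilinearSeries.ofScalars_norm, Real.norm_eq_abs, abs_of_pos (H.pos k)]
  · rw [Metric.eball_ofReal, mem_ball_zero_iff] at hy
    simp only [FormalMultilinearSeries.ofScalars_apply_eq, smul_eq_mul, zero_add]
    exact (h y hy).hasSum

end Ser

open Ser in
theorem ser : SER := by
  intro P l l0 l1 heq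
  obtain ⟨c, H⟩ : ∃ c, Hyp P l c := ⟨_, l0, l1, heq, rec_cf _ _ _ _⟩
  have l2 : 0 < l ^ 2 := by positivity
  have l3 : l ^ 2 < 1 := by nlinarith
  obtain ⟨t₀, t0, t1⟩ := H.small
  have hb : BddAbove {t | 0 ≤ t ∧ Sm c t} := ⟨1 / l ^ 2, fun t ht => by
    have ha := H.abs_l t
    rw [abs_of_nonneg ht.1] at ha
    have h1 := H.lt ht.1 ht.2
    have h2 := H.ge (mul_nonneg l2.le ht.1) (H.mono ht.2 (ha.2.trans ha.1))
    rw [le_div_iff₀ l2]
    linarith [P.he]⟩
  obtain ⟨R, hR, hin, hout⟩ : ∃ R : ℝ, 0 < R ∧ (∀ t, |t| < R → Sm c t) ∧ ∀ t, R < t → ¬ Sm c t := by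
    have h0 : 0 < sSup {t | 0 ≤ t ∧ Sm c t} := t0.trans_le (le_csSup hb ⟨t0.le, t1⟩)
    refine ⟨_, h0, fun t ht => ?_, fun t ht hs => ?_⟩
    · obtain ⟨s, hs, hs'⟩ := exists_lt_of_lt_csSup (s := {t | 0 ≤ t ∧ Sm c t}) ⟨t₀, t0.le, t1⟩ ht
      exact H.mono hs.2 hs'.le
    · exact absurd (le_csSup hb ⟨(h0.trans ht).le, hs⟩) (not_le.2 ht)
  have hp := H.power hR hin
  have hana : AnalyticOnNhd ℝ (sm c) (Ioo (-R) R) := fun t ht =>
    hp.analyticAt_of_mem (by
      rw [Metric.eball_ofReal, mem_ball_zero_iff]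
      exact abs_lt.2 ht)
  have hc : ContinuousAt (fun t => sm c (l ^ 2 * t)) R :=
    ContinuousAt.comp (f := fun t => l ^ 2 * t) (g := sm c)
      (hana _ ⟨by nlinarith, by nlinarith⟩).continuousAt (by fun_prop)
  have hI : ∀ᶠ t in 𝓝[<] R, t ∈ Ioo 0 R := Ioo_mem_nhdsLT hR
  have hI' : ∀ t ∈ Ioo 0 R, Sm c t := fun t ht => hin t (by rw [abs_of_pos ht.1]; exact ht.2)
  have hge : 1 ≤ sm c (l ^ 2 * R) := by
    by_contra hlt
    have e1 : ∀ᶠ t in 𝓝 R, sm c (l ^ 2 * t) < 1 := hc.eventually_lt continuousAt_const (not_le.1 hlt)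
    have e2 : ∀ᶠ t in 𝓝 R, l * t < R :=
      (show ContinuousAt (fun t => l * t) R by fun_prop).eventually_lt continuousAt_const
        (by show l * R < R; nlinarith)
    obtain ⟨t, ⟨a1, a2⟩, a3⟩ :=
      (((e1.and e2).filter_mono nhdsWithin_le_nhds).and (self_mem_nhdsWithin (s := Ioi R))).exists
    have a4 : 0 < t := hR.trans a3
    exact hout t a3 (H.ext a4.le (hI' _ ⟨by positivity, a2⟩) a1)
  have hone : sm c (l ^ 2 * R) = 1 :=
    le_antisymm (le_of_tendsto (hc.tendsto.mono_left (nhdsWithin_le_nhds (s := Iio R)))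
      (hI.mono fun t ht => (H.lt ht.1.le (hI' t ht)).le)) hge
  refine ⟨c, sm c, R, H.rc, H.pos, hR, fun t ht => (hin t ht).hasSum, fun t ht hs => ?_, hone,
    hana, ?_, ?_, fun t ht => ?_, fun t ht => H.fe (hin _ (by rwa [abs_abs])), ?_, ?_⟩
  · rcases ht.eq_or_lt with rfl | ht
    · exact absurd (H.lt hR.le hs) (not_lt.2 hge)
    · exact hout t ht hs
  · simpa [FormalMultilinearSeries.ofScalars_apply_eq, H.rc.2.1] using
      hp.hasFPowerSeriesAt.hasDerivAt
  · rw [sm, tsum_eq_single 0 fun k hk => by simp [hk]]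
    simp [H.rc.1]
  · have s1 : Sm c |t| := hin _ (by rwa [abs_abs])
    refine lt_of_le_of_lt ?_ (H.lt (abs_nonneg t) s1)
    have ha := H.abs_l t
    have ha' := H.abs_l |t|
    rw [abs_abs] at ha'
    refine (H.mono s1 (ha.2.trans ha.1)).tsum_le_tsum (fun k => ?_) (H.mono s1 (ha'.2.trans ha'.1))
    refine mul_le_mul_of_nonneg_left ((le_abs_self _).trans (le_of_eq ?_)) (H.pos k).le
    rw [abs_pow, abs_mul, abs_of_pos l2]
  · intro s hs t ht hst
    refine hasSum_lt (i := 1) (fun k => ?_) ?_ (hin s (by rw [abs_of_nonneg hs.1]; exact hs.2)).hasSum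
      (hin t (by rw [abs_of_nonneg ht.1]; exact ht.2)).hasSum
    · exact mul_le_mul_of_nonneg_left (pow_le_pow_left₀ hs.1 hst.le k) (H.pos k).le
    · simpa [H.rc.2.1] using hst
  · have h1 : Tendsto (fun t => 1 - sm c (l ^ 2 * t)) (𝓝[<] R) (𝓝[>] 0) := by
      refine tendsto_nhdsWithin_iff.2 ⟨?_, hI.mono fun t ht => sub_pos.2 (H.lt ht.1.le (hI' t ht))⟩
      have := (hc.tendsto.mono_left (nhdsWithin_le_nhds (s := Iio R))).const_sub 1
      rwa [hone, sub_self] at this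
    have h2 := (tendsto_inv_nhdsGT_zero.comp h1).const_mul_atTop
      (mul_pos P.he (sub_pos.2 (e_lt_one P)))
    refine tendsto_atTop_mono' _ (hI.mono fun t ht => ?_) h2
    have h3 := sub_pos.2 (H.lt ht.1.le (hI' t ht))
    exact (mul_inv_le_iff₀ h3).2 (H.low ht.1.le (hI' t ht))

end Pool.Agent.MP_a0c75d_an.H78
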