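import Pool.Agent.MP_a0c75d_an.H31.Main

/-! The separating curve is parametrised by a power series with positive coefficients. -/

open Filter Topology Set

namespace Pool.Agent.MP_a0c75d_an.H78

open Pool.Agent.MP_a0c75d_an.H31

/-- The recursion for the coefficients. -/
def Rec (A B e l : ℝ) (c : ℕ → ℝ) : Prop :=
  c 0 = e ∧ c 1 = 1 ∧ ∀ k, 2 ≤ k → c k =
    (∑ j ∈ Finset.Ioo 0 k, (B * l ^ j + 1) * c j * (l ^ (2 * (k - j)) * c (k - j))) /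
      (1 - e - B * e * l ^ k - (A + (B + 1) * e) * l ^ (2 * k))

/-- What is used of the sum of the series. -/
structure Good (P : Par) (l R : ℝ) (h : ℝ → ℝ) : Prop where
  ana : AnalyticOnNhd ℝ h (Ioo (-R) R)
  der : HasDerivAt h 1 0
  zero : h 0 = P.e
  lt : ∀ t, |t| < R → h (l ^ 2 * t) < 1
  fe : ∀ t, |t| < R → (P.A + P.B * h (l * t) + h t) * h (l ^ 2 * t) = P.α + h t
  mono : StrictMonoOn h (Ico 0 R)
  top : Tendsto h (𝓝[<] R) atTop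

def SER : Prop :=
  ∀ (P : Par) (l : ℝ), 0 < l → l < 1 →
    (P.A + (P.B + 1) * P.e) * l ^ 2 + P.B * P.e * l = 1 - P.e →
    ∃ (c : ℕ → ℝ) (h : ℝ → ℝ) (R : ℝ), Rec P.A P.B P.e l c ∧ (∀ k, 0 < c k) ∧ 0 < R ∧
      (∀ t, |t| < R → HasSum (fun k => c k * t ^ k) (h t)) ∧
      (∀ t, R ≤ t → ¬Summable fun k => c k * t ^ k) ∧ h (l ^ 2 * R) = 1 ∧ Good P l R h

def EXT : Prop :=
  ∀ (P : Par) (l R : ℝ) (h φ : ℝ → ℝ), 0 < l → l < 1 → 0 < R → Good P l R h →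
    ContinuousOn φ (Ici 0) → StrictMonoOn φ (Ici 0) →
    (∀ u, 0 ≤ u → 0 < φ u ∧ φ (φ u) = (P.α + u) / (P.A + P.B * φ u + u)) →
    (∀ y, P.Sol y → (P.W y ↔ y 1 = φ (y 0))) →
    ∃ (H : ℝ → ℝ) (t₀ : ℝ), t₀ < 0 ∧ (∀ t, |t| < R → H t = h t) ∧
      (∀ t ∈ Ico t₀ R, H (l ^ 2 * t) < 1 ∧
        H t = (H (l ^ 2 * t) * (P.A + P.B * H (l * t)) - P.α) / (1 - H (l ^ 2 * t))) ∧
      AnalyticOnNhd ℝ H (Ico t₀ R) ∧ StrictMonoOn H (Ico t₀ R) ∧ H '' Ico t₀ R = Ici 0 ∧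
      ∀ t ∈ Ico t₀ R, φ (H t) = H (l * t)

end Pool.Agent.MP_a0c75d_an.H78
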